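import Mathlib
import Pool.Agent.N251.GA.Leaves2
import Pool.Agent.N433.GA.Gauss

/-!
# The Gaussian radical of an integer (helper49 for helper251)
-/

set_option autoImplicit false

namespace Pool.Agent.N49.GA.RadGZ

open Pool.Agent.N251.GA Pool.Agent.N433.GA.Gauss

theorem ab_nat (m : ℕ) : ab (m : GaussianInt) = m := by
  unfold ab
  rw [map_natCast]
  simp

theorem norm_nat (m : ℕ) : (m : GaussianInt).norm = (m : ℤ) * m := by
  rw [Zsqrtd.norm_natCast]

/-- a prime divisor of an integer divides the radical -/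
theorem dvd_rad {n : ℤ} (hn : n ≠ 0) {Q : GaussianInt} (hQ : Prime Q)
    (h : Q ∣ (n : GaussianInt)) : ∃ p ∈ n.natAbs.primeFactors, Q ∣ (p : GaussianInt) := by
  have h1 : Q ∣ ((n.natAbs : ℕ) : GaussianInt) := by
    have h2 : ((n.natAbs : ℕ) : GaussianInt) = ((n.natAbs : ℤ) : GaussianInt) := (Int.cast_natCast _).symm
    rw [h2]
    rcases Int.natAbs_eq n with h3 | h3
    · rwa [← h3]
    · rw [h3, Int.cast_neg, dvd_neg] at h
      exact h
  have h0 : n.natAbs ≠ 0 := Int.natAbs_ne_zero.2 hn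
  have h4 : ((n.natAbs : ℕ) : GaussianInt) = ∏ p ∈ n.natAbs.primeFactors,
      (p : GaussianInt) ^ n.natAbs.factorization p := by
    have h5 := Nat.prod_factorization_pow_eq_self h0
    rw [Finsupp.prod, Nat.support_factorization] at h5
    have h6 := congrArg (fun m : ℕ => (m : GaussianInt)) h5
    beta_reduce at h6
    rw [← h6]
    push_cast
    rfl
  rw [h4] at h1
  obtain ⟨p, hp, hd⟩ := (hQ.dvd_finsetProd_iff _).1 h1
  exact ⟨p, hp, hQ.dvd_of_dvd_pow hd⟩

/-- every nonzero element has a normalised associate -/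
theorem exists_norm (z : GaussianInt) (hz : z ≠ 0) :
    ∃ w : GaussianInt, Associated z w ∧ 0 < w.re ∧ 0 ≤ w.im := by
  have hi : IsUnit (⟨0, 1⟩ : GaussianInt) := by
    rw [← Zsqrtd.norm_eq_one_iff, Zsqrtd.norm_def]
    norm_num
  have hne : z.re ≠ 0 ∨ z.im ≠ 0 := by
    by_contra h
    push Not at h
    exact hz (Zsqrtd.ext h.1 h.2)
  rcases lt_trichotomy z.re 0 with h1 | h1 | h1
  · rcases le_or_gt z.im 0 with h2 | h2
    · refine ⟨-z, Associated.neg_right (Associated.refl z), ?_, ?_⟩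
      · rw [Zsqrtd.re_neg]; omega
      · rw [Zsqrtd.im_neg]; omega
    · refine ⟨z * (-⟨0, 1⟩), (associated_mul_unit_right z _ hi.neg), ?_, ?_⟩
      · rw [Zsqrtd.re_mul]; simp; omega
      · rw [Zsqrtd.im_mul]; simp; omega
  · rcases lt_trichotomy z.im 0 with h2 | h2 | h2
    · refine ⟨z * (⟨0, 1⟩), (associated_mul_unit_right z _ hi), ?_, ?_⟩
      · rw [Zsqrtd.re_mul]; simp; omega
      · rw [Zsqrtd.im_mul]; simp; omega
    · omega
    · refine ⟨z * (-⟨0, 1⟩), (associated_mul_unit_right z _ hi.neg), ?_, ?_⟩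
      · rw [Zsqrtd.re_mul]; simp; omega
      · rw [Zsqrtd.im_mul]; simp; omega
  · rcases le_or_gt 0 z.im with h2 | h2
    · exact ⟨z, Associated.refl z, h1, h2⟩
    · refine ⟨z * (⟨0, 1⟩), (associated_mul_unit_right z _ hi), ?_, ?_⟩
      · rw [Zsqrtd.re_mul]; simp; omega
      · rw [Zsqrtd.im_mul]; simp; omega

theorem norm_dvd {x y : GaussianInt} (h : x ∣ y) : x.norm ∣ y.norm := by
  obtain ⟨z, rfl⟩ := h
  rw [Zsqrtd.norm_mul]
  exact dvd_mul_right _ _

/-- a Gaussian integer whose norm is an odd prime is not associated to its conjugate -/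
theorem not_assoc_star {p : ℕ} (hp : p.Prime) (h2 : p ≠ 2) {Q : GaussianInt}
    (hQ : Q.norm = p) (h : Associated (star Q) Q) : False := by
  have hpi : Prime (p : ℤ) := Nat.prime_iff_prime_int.1 hp
  have hd : Q ∣ star Q := h.symm.dvd
  have h1 : Q ∣ ((2 * Q.re : ℤ) : GaussianInt) := by
    have e : ((2 * Q.re : ℤ) : GaussianInt) = Q + star Q := by
      ext
      · simp; ring
      · simp
    rw [e]
    exact dvd_add dvd_rfl hd
  have h1' : Q ∣ ((2 * Q.im : ℤ) : GaussianInt) := by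
    have e : ((2 * Q.im : ℤ) : GaussianInt) = (Q - star Q) * (-⟨0, 1⟩) := by
      ext
      · simp; ring
      · simp
    rw [e]
    exact (dvd_sub dvd_rfl hd).mul_right _
  have key : ∀ a : ℤ, Q ∣ ((2 * a : ℤ) : GaussianInt) → (p : ℤ) ∣ a := by
    intro a ha
    have h3 := norm_dvd ha
    rw [hQ, Zsqrtd.norm_intCast] at h3
    have h4 : (p : ℤ) ∣ 2 * a := by
      rcases hpi.dvd_or_dvd h3 with h5 | h5 <;> exact h5
    rcases hpi.dvd_or_dvd h4 with h5 | h5
    · exfalso
      have h6 : p ∣ 2 := by exact_mod_cast h5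
      exact h2 ((Nat.prime_dvd_prime_iff_eq hp Nat.prime_two).1 h6)
    · exact h5
  obtain ⟨a, ha⟩ := key _ h1
  obtain ⟨b, hb⟩ := key _ h1'
  rw [Zsqrtd.norm_def, ha, hb] at hQ
  have hp1 : (p : ℤ) * ((p : ℤ) * (a * a + b * b)) = p * 1 := by linarith
  have hp0 : (p : ℤ) ≠ 0 := hpi.ne_zero
  have h7 := mul_left_cancel₀ hp0 hp1
  exact hpi.not_isUnit (IsUnit.of_mul_eq_one _ h7)

/-- an odd prime divisor of `n` divides the product of the normalised prime divisors of `n` -/
theorem dvd_prod {n : ℤ} (hn : (n : GaussianInt) ≠ 0) {p : ℕ} (hp : p.Prime) (h2 : p ≠ 2)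
    (hpn : (p : ℤ) ∣ n) : (p : GaussianInt) ∣ ∏ Q ∈ (finite_Sn (n : GaussianInt) hn).toFinset, Q := by
  classical
  have hpn' : (p : GaussianInt) ∣ (n : GaussianInt) := by
    obtain ⟨m, rfl⟩ := hpn
    exact ⟨(m : GaussianInt), by push_cast; ring⟩
  have hp0 : (p : GaussianInt) ≠ 0 := by exact_mod_cast hp.ne_zero
  have hpu : ¬ IsUnit (p : GaussianInt) := by
    intro hu
    rw [← Zsqrtd.norm_eq_one_iff, norm_nat] at hu
    have h3 : p * p = 1 := by
      have h4 : ((p : ℤ) * p).natAbs = p * p := by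
        rw [Int.natAbs_mul, Int.natAbs_natCast]
      omega
    have := hp.two_le
    nlinarith
  obtain ⟨Q₀, hQ₀, hQ₀d⟩ := WfDvdMonoid.exists_irreducible_factor hpu hp0
  obtain ⟨Q, hQa, hQn⟩ := exists_norm Q₀ hQ₀.ne_zero
  have hQp : Prime Q := hQa.prime_iff.1 hQ₀.prime
  have hQd : Q ∣ (p : GaussianInt) := hQa.symm.dvd.trans hQ₀d
  have hQS : Q ∈ (finite_Sn (n : GaussianInt) hn).toFinset := by
    rw [Set.Finite.mem_toFinset]
    exact ⟨hQp, hQd.trans hpn', hQn⟩
  obtain ⟨z, hz⟩ := hQd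
  have hnn : 0 ≤ Q.norm := GaussianInt.norm_nonneg Q
  have hzn : 0 ≤ z.norm := GaussianInt.norm_nonneg z
  obtain ⟨q, hq⟩ := Int.eq_ofNat_of_zero_le hnn
  obtain ⟨w, hw⟩ := Int.eq_ofNat_of_zero_le hzn
  have hmul : q * w = p ^ 2 := by
    have h3 : (p : GaussianInt).norm = Q.norm * z.norm := by rw [hz, Zsqrtd.norm_mul]
    rw [norm_nat, hq, hw] at h3
    rw [pow_two]
    exact_mod_cast h3.symm
  have hq1 : q ≠ 1 := by
    intro h3
    apply hQp.not_isUnit
    rw [← Zsqrtd.norm_eq_one_iff, hq, h3]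
    rfl
  have hqd : q ∣ p ^ 2 := ⟨w, hmul.symm⟩
  obtain ⟨k, hk, hqk⟩ := (Nat.dvd_prime_pow hp).1 hqd
  interval_cases k
  · rw [pow_zero] at hqk
    exact absurd hqk hq1
  · rw [pow_one] at hqk
    -- split case
    have hQnorm : Q.norm = p := by rw [hq, hqk]
    have hstar : Prime (star Q) := (MulEquiv.prime_iff (starRingAut (R := GaussianInt))).2 hQp
    obtain ⟨Q', hQ'a, hQ'n⟩ := exists_norm (star Q) hstar.ne_zero
    have hpe : (p : GaussianInt) = Q * star Q := by
      rw [← Zsqrtd.norm_eq_mul_conj, hQnorm]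
      push_cast
      rfl
    have hQ'S : Q' ∈ (finite_Sn (n : GaussianInt) hn).toFinset := by
      rw [Set.Finite.mem_toFinset]
      refine ⟨hQ'a.prime_iff.1 hstar, ?_, hQ'n⟩
      refine (hQ'a.symm.dvd.trans ?_).trans hpn'
      rw [hpe]
      exact dvd_mul_left _ _
    have hne : Q ≠ Q' := by
      intro h3
      rw [← h3] at hQ'a
      exact not_assoc_star hp h2 hQnorm hQ'a
    have h3 : ∏ x ∈ ({Q, Q'} : Finset GaussianInt), x ∣
        ∏ x ∈ (finite_Sn (n : GaussianInt) hn).toFinset, x := by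
      apply Finset.prod_dvd_prod_of_subset
      intro x hx
      rw [Finset.mem_insert, Finset.mem_singleton] at hx
      rcases hx with rfl | rfl
      · exact hQS
      · exact hQ'S
    rw [Finset.prod_pair hne] at h3
    refine Dvd.dvd.trans ?_ h3
    rw [hpe]
    exact mul_dvd_mul_left Q hQ'a.dvd
  · -- inert case
    have hw1 : w = 1 := by
      rw [hqk] at hmul
      have hp2 : 0 < p ^ 2 := by have := hp.pos; positivity
      have : p ^ 2 * w = p ^ 2 * 1 := by rw [hmul, mul_one]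
      exact Nat.eq_of_mul_eq_mul_left hp2 this
    have hzu : IsUnit z := by
      rw [← Zsqrtd.norm_eq_one_iff, hw, hw1]
      rfl
    have h3 : Q ∣ ∏ x ∈ (finite_Sn (n : GaussianInt) hn).toFinset, x :=
      Finset.dvd_prod_of_mem (fun x => x) hQS
    refine Dvd.dvd.trans ?_ h3
    rw [hz]
    exact (hzu.mul_right_dvd).2 dvd_rfl

theorem t : LeafRadGZ := by
  classical
  intro n hn
  have hn' : (n : GaussianInt) ≠ 0 := by exact_mod_cast hn
  rw [radG_eq _ hn', ← ab_prod]
  constructor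
  · -- upper bound
    have h1 : ab ((∏ p ∈ n.natAbs.primeFactors, p : ℕ) : GaussianInt) = radZ n := by
      rw [ab_nat, radZ]
      push_cast
      rfl
    rw [← h1]
    have h0 : ((∏ p ∈ n.natAbs.primeFactors, p : ℕ) : GaussianInt) ≠ 0 := by
      have : (∏ p ∈ n.natAbs.primeFactors, p) ≠ 0 :=
        Finset.prod_ne_zero_iff.2 fun p hp => (Nat.prime_of_mem_primeFactors hp).ne_zero
      exact_mod_cast this
    refine ab_le_of_dvd h0 (prod_dvd _ _ fun Q hQ => ?_)
    rw [Set.Finite.mem_toFinset] at hQ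
    obtain ⟨p, hp, hd⟩ := dvd_rad hn hQ.1 hQ.2.1
    refine ⟨hQ.1, hd.trans ?_, hQ.2.2⟩
    exact Nat.cast_dvd_cast (Finset.dvd_prod_of_mem (fun p => p) hp)
  · -- lower bound
    set P := ∏ Q ∈ (finite_Sn (n : GaussianInt) hn').toFinset, Q with hP
    have hP0 : P ≠ 0 := by
      rw [hP]
      refine Finset.prod_ne_zero_iff.2 fun Q hQ => ?_
      rw [Set.Finite.mem_toFinset] at hQ
      exact hQ.1.ne_zero
    have h1 : ∏ p ∈ n.natAbs.primeFactors.filter (fun p => ¬ p = 2), (p : GaussianInt) ∣ P := by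
      apply Finset.prod_dvd_of_coprime
      · intro p hp q hq hpq
        rw [Finset.mem_coe, Finset.mem_filter] at hp hq
        exact Nat.Coprime.cast ((Nat.coprime_primes (Nat.prime_of_mem_primeFactors hp.1)
          (Nat.prime_of_mem_primeFactors hq.1)).2 hpq)
      · intro p hp
        rw [Finset.mem_filter] at hp
        refine dvd_prod hn' (Nat.prime_of_mem_primeFactors hp.1) hp.2 ?_
        exact Int.natCast_dvd.2 (Nat.dvd_of_mem_primeFactors hp.1)
    have h2 : ∏ p ∈ n.natAbs.primeFactors.filter (fun p => ¬ p = 2), (p : ℝ) ≤ ab P := by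
      have h3 := ab_le_of_dvd hP0 h1
      have h4 : ab (∏ p ∈ n.natAbs.primeFactors.filter (fun p => ¬ p = 2), (p : GaussianInt)) =
          ∏ p ∈ n.natAbs.primeFactors.filter (fun p => ¬ p = 2), (p : ℝ) := by
        have h5 := ab_nat (∏ p ∈ n.natAbs.primeFactors.filter (fun p => ¬ p = 2), p)
        push_cast at h5
        exact h5
      rw [h4] at h3
      exact h3
    have h3 : ∏ p ∈ n.natAbs.primeFactors.filter (fun p => p = 2), (p : ℝ) ≤ 2 := by
      rw [Finset.filter_eq']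
      split_ifs
      · simp
      · simp
    have h4 : radZ n = (∏ p ∈ n.natAbs.primeFactors.filter (fun p => p = 2), (p : ℝ)) *
        ∏ p ∈ n.natAbs.primeFactors.filter (fun p => ¬ p = 2), (p : ℝ) := by
      rw [radZ]
      exact (Finset.prod_filter_mul_prod_filter_not _ _ _).symm
    rw [h4]
    exact mul_le_mul h3 h2 (Finset.prod_nonneg fun p _ => Nat.cast_nonneg p) (by norm_num)

end Pool.Agent.N49.GA.RadGZ
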